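import Mathlib

/-!
# A partial injection hitting the directed cycles of a finite digraph twice
-/

set_option autoImplicit false

namespace Pool.Agent.TF

open Finset
open scoped Classical

/-- a Hall type lemma for minimum covers: the left part of a minimum cover is matched outside the
right part -/
theorem hall_of_min {X : Type} (D : X → X → Prop) (P0 CL CR : Finset X) (hL : CL ⊆ P0)
    (hcov : ∀ x ∈ P0, ∀ y ∈ P0, D x y → x ∈ CL ∨ y ∈ CR)
    (hmin : ∀ CL' CR' : Finset X, CL' ⊆ P0 → CR' ⊆ P0 → (∀ x ∈ P0, ∀ y ∈ P0, D x y → x ∈ CL' ∨ y ∈ CR') →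
      CL.card + CR.card ≤ CL'.card + CR'.card) (hR : CR ⊆ P0) :
    ∃ p : X → X, (∀ x ∈ CL, p x ∈ P0 ∧ D x (p x) ∧ p x ∉ CR) ∧ ∀ x ∈ CL, ∀ y ∈ CL, p x = p y → x = y := by
  let nb : {x : X // x ∈ CL} → Finset X := fun x => P0.filter (fun y => D x.1 y ∧ y ∉ CR)
  have hall : ∀ s : Finset {x : X // x ∈ CL}, s.card ≤ (s.biUnion nb).card := by
    intro s
    by_contra hcon
    push Not at hcon
    let Y : Finset X := s.map (Function.Embedding.subtype _)
    have hY : Y ⊆ CL := by
      intro x hx
      rw [mem_map] at hx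
      obtain ⟨y, -, rfl⟩ := hx
      exact y.2
    have hYc : Y.card = s.card := card_map _
    have h1 := hmin (CL \ Y) (CR ∪ s.biUnion nb) (sdiff_subset.trans hL) (by
      intro x hx
      rw [mem_union] at hx
      rcases hx with hx | hx
      · exact hR hx
      · obtain ⟨z, -, hz⟩ := mem_biUnion.1 hx
        exact (mem_filter.1 hz).1) (by
      intro x hx y hy hxy
      by_cases hyR : y ∈ CR
      · exact Or.inr (mem_union_left _ hyR)
      · have hxL : x ∈ CL := (hcov x hx y hy hxy).resolve_right hyR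
        by_cases hxY : x ∈ Y
        · right
          rw [mem_map] at hxY
          obtain ⟨z, hz, rfl⟩ := hxY
          exact mem_union_right _ (mem_biUnion.2 ⟨z, hz, mem_filter.2 ⟨hy, hxy, hyR⟩⟩)
        · exact Or.inl (mem_sdiff.2 ⟨hxL, hxY⟩))
    have h2 := card_union_le CR (s.biUnion nb)
    have h3 := card_sdiff_of_subset hY
    have h4 := card_le_card hY
    omega
  obtain ⟨f, hf, hft⟩ := (Finset.all_card_le_biUnion_card_iff_exists_injective nb).1 hall
  let q : X → X := fun x => if h : x ∈ CL then f ⟨x, h⟩ else x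
  have hq : ∀ x (hx : x ∈ CL), q x = f ⟨x, hx⟩ := fun x hx => dif_pos hx
  refine ⟨q, ?_, ?_⟩
  · intro x hx
    rw [hq x hx]
    have := mem_filter.1 (hft ⟨x, hx⟩)
    exact ⟨this.1, this.2⟩
  · intro x hx y hy h
    rw [hq x hx, hq y hy] at h
    have := hf h
    simpa using this

/-- LEMMA H -/
theorem cyc_aux {X : Type} (D : X → X → Prop) (hirr : ∀ x, ¬ D x x) : ∀ n : ℕ, ∀ P0 : Finset X, P0.card = n →
    ∃ (M : Finset X) (p : X → X), M ⊆ P0 ∧ (∀ x ∈ M, p x ∈ P0 ∧ D x (p x)) ∧
      (∀ x ∈ M, ∀ y ∈ M, p x = p y → x = y) ∧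
      ∀ Z : Finset X, Z ⊆ P0 → Z.Nonempty → (∀ z ∈ Z, ∃ y ∈ Z, D y z) →
        (∃ x ∈ Z, ∃ y ∈ Z, x ≠ y ∧ x ∈ M ∧ y ∈ M) ∨ ∃ w ∈ Z, w ∈ M ∧ ∀ y ∈ M, p y ≠ w := by
  intro n
  induction n using Nat.strong_induction_on with
  | _ n ih =>
    intro P0 hP0
    -- a minimum cover
    obtain ⟨⟨CL, CR⟩, hc, hmin'⟩ := Finset.exists_min_image
      ((P0.powerset ×ˢ P0.powerset).filter (fun c : Finset X × Finset X =>
        ∀ x ∈ P0, ∀ y ∈ P0, D x y → x ∈ c.1 ∨ y ∈ c.2))
      (fun c => c.1.card + c.2.card) ⟨(P0, P0), by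
        rw [mem_filter, mem_product]
        exact ⟨⟨mem_powerset.2 (Finset.Subset.refl _), mem_powerset.2 (Finset.Subset.refl _)⟩,
          fun x hx _ _ _ => Or.inl hx⟩⟩
    rw [mem_filter, mem_product, mem_powerset, mem_powerset] at hc
    obtain ⟨⟨hL, hR⟩, hcov⟩ := hc
    have hmin : ∀ CL' CR' : Finset X, CL' ⊆ P0 → CR' ⊆ P0 →
        (∀ x ∈ P0, ∀ y ∈ P0, D x y → x ∈ CL' ∨ y ∈ CR') → CL.card + CR.card ≤ CL'.card + CR'.card := by
      intro CL' CR' h1 h2 h3
      exact hmin' (CL', CR') (by
        rw [mem_filter, mem_product, mem_powerset, mem_powerset]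
        exact ⟨⟨h1, h2⟩, h3⟩)
    obtain ⟨p, hp, hpinj⟩ := hall_of_min D P0 CL CR hL hcov hmin hR
    by_cases hP : CR \ CL = P0
    · -- everything is matched
      have hCR : ∀ x ∈ P0, x ∈ CR ∧ x ∉ CL := fun x hx => mem_sdiff.1 (hP ▸ hx)
      obtain ⟨q, hq, hqinj⟩ := hall_of_min (fun x y => D y x) P0 CR CL hR
        (fun x hx y hy h => (hcov y hy x hx h).symm)
        (fun CL' CR' h1 h2 h3 => by
          have := hmin CR' CL' h2 h1 (fun x hx y hy h => (h3 y hy x hx h).symm)
          omega) hL
      -- q is a permutation of P0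
      have hsurj : ∀ x ∈ P0, ∃ y ∈ P0, q y = x := by
        intro x hx
        have himg : P0.image q = P0 := by
          apply eq_of_subset_of_card_le
          · intro z hz
            obtain ⟨y, hy, rfl⟩ := mem_image.1 hz
            exact (hq y (hCR y hy).1).1
          · rw [card_image_of_injOn]
            intro y hy z hz h
            exact hqinj y (hCR y hy).1 z (hCR z hz).1 h
        have hx' : x ∈ P0.image q := himg.symm ▸ hx
        obtain ⟨y, hy, h⟩ := mem_image.1 hx'
        exact ⟨y, hy, h⟩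
      choose! r hr1 hr2 using hsurj
      refine ⟨P0, r, Finset.Subset.refl _, ?_, ?_, ?_⟩
      · intro x hx
        refine ⟨hr1 x hx, ?_⟩
        have h1 := (hq (r x) (hCR _ (hr1 x hx)).1).2.1
        rw [hr2 x hx] at h1
        exact h1
      · intro x hx y hy h
        rw [← hr2 x hx, ← hr2 y hy, h]
      · intro Z hZ hne hin
        left
        obtain ⟨z, hz⟩ := hne
        obtain ⟨y, hy, hyz⟩ := hin z hz
        refine ⟨z, hz, y, hy, ?_, hZ hz, hZ hy⟩
        rintro rfl
        exact hirr _ hyz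
    · have hlt : (CR \ CL).card < n := by
        rw [← hP0]
        exact card_lt_card ⟨sdiff_subset.trans hR, fun h => hP (Finset.Subset.antisymm (sdiff_subset.trans hR) h)⟩
      obtain ⟨M', p', hM', hp', hp'inj, hZ'⟩ := ih _ hlt (CR \ CL) rfl
      have hM'L : ∀ x ∈ M', x ∉ CL := fun x hx => (mem_sdiff.1 (hM' hx)).2
      refine ⟨CL ∪ M', fun x => if x ∈ CL then p x else p' x, ?_, ?_, ?_, ?_⟩
      · exact union_subset hL ((hM'.trans sdiff_subset).trans hR)
      · intro x hx
        by_cases h : x ∈ CL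
        · simp only [if_pos h]
          exact ⟨(hp x h).1, (hp x h).2.1⟩
        · simp only [if_neg h]
          have h1 := hp' x ((mem_union.1 hx).resolve_left h)
          exact ⟨hR (mem_sdiff.1 h1.1).1, h1.2⟩
      · intro x hx y hy hxy
        by_cases h : x ∈ CL
        · by_cases h' : y ∈ CL
          · simp only [if_pos h, if_pos h'] at hxy
            exact hpinj x h y h' hxy
          · exfalso
            simp only [if_pos h, if_neg h'] at hxy
            have h1 := hp' y ((mem_union.1 hy).resolve_left h')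
            exact (hp x h).2.2 (hxy ▸ (mem_sdiff.1 h1.1).1)
        · by_cases h' : y ∈ CL
          · exfalso
            simp only [if_neg h, if_pos h'] at hxy
            have h1 := hp' x ((mem_union.1 hx).resolve_left h)
            exact (hp y h').2.2 (hxy ▸ (mem_sdiff.1 h1.1).1)
          · simp only [if_neg h, if_neg h'] at hxy
            exact hp'inj x ((mem_union.1 hx).resolve_left h) y ((mem_union.1 hy).resolve_left h') hxy
      · intro Z hZ hne hin
        by_cases h1 : ∃ w ∈ Z, w ∈ CL ∧ w ∈ CR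
        · right
          obtain ⟨w, hw, hwL, hwR⟩ := h1
          refine ⟨w, hw, mem_union_left _ hwL, ?_⟩
          intro y hy
          by_cases h : y ∈ CL
          · simp only [if_pos h]
            intro he
            exact (hp y h).2.2 (he ▸ hwR)
          · simp only [if_neg h]
            intro he
            have h1 := hp' y ((mem_union.1 hy).resolve_left h)
            exact (mem_sdiff.1 h1.1).2 (he ▸ hwL)
        · push Not at h1
          by_cases h2 : ∃ x ∈ Z, x ∈ CL
          · left
            obtain ⟨x, hx, hxL⟩ := h2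
            obtain ⟨y, hy, hyx⟩ := hin x hx
            have hyL : y ∈ CL := (hcov y (hZ hy) x (hZ hx) hyx).resolve_right (h1 x hx hxL)
            exact ⟨x, hx, y, hy, fun e => hirr x (by rw [← e] at hyx; exact hyx), mem_union_left _ hxL,
              mem_union_left _ hyL⟩
          · push Not at h2
            have hZP : Z ⊆ CR \ CL := by
              intro z hz
              obtain ⟨y, hy, hyz⟩ := hin z hz
              exact mem_sdiff.2 ⟨(hcov y (hZ hy) z (hZ hz) hyz).resolve_left (h2 y hy), h2 z hz⟩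
            rcases hZ' Z hZP hne hin with ⟨x, hx, y, hy, hxy, hxM, hyM⟩ | ⟨w, hw, hwM, hwp⟩
            · exact Or.inl ⟨x, hx, y, hy, hxy, mem_union_right _ hxM, mem_union_right _ hyM⟩
            · right
              refine ⟨w, hw, mem_union_right _ hwM, ?_⟩
              intro y hy
              by_cases h : y ∈ CL
              · simp only [if_pos h]
                intro he
                exact (hp y h).2.2 (he ▸ (mem_sdiff.1 (hM' hwM)).1)
              · simp only [if_neg h]
                exact hwp y ((mem_union.1 hy).resolve_left h)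

/-- LEMMA H: every finite loopless digraph has a set `M` and an injection `p` of `M` along arcs such that
every nonempty set `Z` in which every vertex has an in-neighbour contains two vertices of `M` or a vertex of
`M` outside the image -/
theorem cyc {X : Type} [Fintype X] (D : X → X → Prop) (hirr : ∀ x, ¬ D x x) :
    ∃ (M : Finset X) (p : X → X), (∀ x ∈ M, D x (p x)) ∧ (∀ x ∈ M, ∀ y ∈ M, p x = p y → x = y) ∧
      ∀ Z : Finset X, Z.Nonempty → (∀ z ∈ Z, ∃ y ∈ Z, D y z) →
        (∃ x ∈ Z, ∃ y ∈ Z, x ≠ y ∧ x ∈ M ∧ y ∈ M) ∨ ∃ w ∈ Z, w ∈ M ∧ ∀ y ∈ M, p y ≠ w := by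
  obtain ⟨M, p, -, h1, h2, h3⟩ := cyc_aux D hirr _ univ rfl
  exact ⟨M, p, fun x hx => (h1 x hx).2, h2, fun Z => h3 Z (subset_univ _)⟩

end Pool.Agent.TF
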