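import Mathlib
import Pool.Agent.T3.Sep
import Pool.Agent.TF.Digraph

/-!
# A clique is not cut off by few vertices in a contraction-critical graph
-/

set_option autoImplicit false

namespace Pool.Agent.TF

open Finset
open scoped Classical

/-- SEPARATION THEOREM: in a contraction-critical graph a clique `A` is not separated from a
nonempty set by at most `k` vertices -/
theorem sep_clique {V : Type} [Fintype V] {G : SimpleGraph V} {k : ℕ} (hnc : ¬ G.Colorable k)
    (hcc : CA72.ConCrit G k)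
    {A B S : Finset V} (hAB : Disjoint A B) (hAS : Disjoint A S) (hBS : Disjoint B S) (hcov : ∀ v, v ∈ A ∨ v ∈ B ∨ v ∈ S)
    (hA : A.Nonempty) (hB : B.Nonempty) (hno : ∀ a ∈ A, ∀ b ∈ B, ¬ G.Adj a b)
    (hAcl : ∀ a ∈ A, ∀ a' ∈ A, a ≠ a' → G.Adj a a') : k + 1 ≤ S.card := by
  by_contra hcon
  have hSk : S.card ≤ k := by omega
  rw [Finset.disjoint_left] at hAB hAS hBS
  obtain ⟨a0, ha0⟩ := hA
  obtain ⟨b0, hb0⟩ := hB
  -- a colouring outside B
  obtain ⟨φ0, hφ0⟩ : ∃ φ : V → Fin k, T3.Pr G B φ := by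
    have hcard : Fintype.card {v : V // v ∉ B} < Fintype.card V := by
      apply Fintype.card_subtype_lt (x := b0)
      simpa using hb0
    obtain ⟨C⟩ := hcc {v : V // v ∉ B} (fun i => {i.1}) (fun i => CA72.singleton_conn G i.1)
      (fun i j hij => by
        rw [Set.disjoint_singleton]
        exact fun e => hij (Subtype.ext e)) hcard
    have ha0B : a0 ∉ B := fun h => hAB ha0 h
    refine ⟨fun v => if hv : v ∉ B then C ⟨v, hv⟩ else C ⟨a0, ha0B⟩, ?_⟩
    intro u v hu hv huv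
    simp only [dif_pos hu, dif_pos hv]
    refine C.valid ⟨fun e => huv.ne (Subtype.ext_iff.1 e), u, rfl, v, rfl, huv⟩
  obtain ⟨φ, hφm, hmax⟩ := Finset.exists_max_image (univ.filter (fun φ : V → Fin k => T3.Pr G B φ))
    (fun φ => (S.image φ).card) ⟨φ0, by simp [hφ0]⟩
  have hφ : T3.Pr G B φ := (mem_filter.1 hφm).2
  have hmax' : ∀ φ' : V → Fin k, T3.Pr G B φ' → (S.image φ').card ≤ (S.image φ).card :=
    fun φ' h => hmax φ' (mem_filter.2 ⟨mem_univ _, h⟩)
  have hAB' : ∀ a ∈ A, a ∉ B := fun a ha h => hAB ha h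
  have hSB' : ∀ s ∈ S, s ∉ B := fun s hs h => hBS h hs
  have huniq : ∀ a ∈ A, ∀ a' ∈ A, φ a = φ a' → a = a' := by
    intro a ha a' ha' h
    by_contra hne
    exact hφ a a' (hAB' a ha) (hAB' a' ha') (hAcl a ha a' ha' hne) h
  let R : Finset (Fin k) := S.image φ
  have hR : ∀ s ∈ S, φ s ∈ R := fun s hs => mem_image_of_mem φ hs
  let Mu : Finset (Fin k) := R.filter (fun j => ∃ s ∈ S, ∃ s' ∈ S, s ≠ s' ∧ φ s = j ∧ φ s' = j)
  have hMu : ∀ j, j ∈ Mu ↔ ∃ s ∈ S, ∃ s' ∈ S, s ≠ s' ∧ φ s = j ∧ φ s' = j := by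
    intro j
    simp only [Mu, mem_filter]
    constructor
    · rintro ⟨-, h⟩; exact h
    · rintro ⟨s, hs, s', hs', h1, h2, h3⟩
      exact ⟨h2 ▸ hR s hs, s, hs, s', hs', h1, h2, h3⟩
  -- (1)
  have step1 : ∀ j ∈ Mu, ∀ j' ∉ R, ∃ a ∈ A, φ a = j' ∧ ∀ s ∈ S, φ s = j → G.Adj a s := by
    intro j hj j' hj'
    by_contra hcon
    push Not at hcon
    obtain ⟨s1, hs1, s2, hs2, h12, hj1, hj2⟩ := (hMu j).1 hj
    -- a vertex to recolour
    obtain ⟨s, hs, hsj, hsA⟩ : ∃ s ∈ S, φ s = j ∧ ∀ a ∈ A, φ a = j' → ¬ G.Adj a s := by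
      by_cases hex : ∃ a ∈ A, φ a = j'
      · obtain ⟨a, ha, haj⟩ := hex
        obtain ⟨s, hs, hsj, hsa⟩ := hcon a ha haj
        refine ⟨s, hs, hsj, fun a' ha' haj' => ?_⟩
        rw [huniq a' ha' a ha (haj'.trans haj.symm)]
        exact hsa
      · push Not at hex
        exact ⟨s1, hs1, hj1, fun a ha haj => absurd haj (hex a ha)⟩
    have hpr : T3.Pr G B (Function.update φ s j') := by
      have key : ∀ u, u ∉ B → u ≠ s → G.Adj s u → φ u ≠ j' := by
        intro u hu hus hsu h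
        rcases hcov u with h1 | h1 | h1
        · exact hsA u h1 h hsu.symm
        · exact hu h1
        · exact hj' (h ▸ hR u h1)
      intro u v hu hv huv
      by_cases h1 : u = s
      · subst h1
        rw [Function.update_self, Function.update_of_ne huv.ne']
        exact (key v hv huv.ne' huv).symm
      · by_cases h2 : v = s
        · subst h2
          rw [Function.update_self, Function.update_of_ne h1]
          exact key u hu h1 huv.symm
        · rw [Function.update_of_ne h1, Function.update_of_ne h2]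
          exact hφ u v hu hv huv
    have h3 := hmax' _ hpr
    have h4 : insert j' R ⊆ S.image (Function.update φ s j') := by
      intro x hx
      rw [mem_insert] at hx
      rw [mem_image]
      rcases hx with rfl | hx
      · exact ⟨s, hs, Function.update_self _ _ _⟩
      · obtain ⟨y, hy, hyx⟩ := mem_image.1 hx
        by_cases hys : y = s
        · -- use the other vertex of the class
          subst hys
          by_cases h5 : s1 = y
          · refine ⟨s2, hs2, ?_⟩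
            rw [Function.update_of_ne (fun h => h12 (h5.trans h.symm)), hj2, ← hsj, hyx]
          · refine ⟨s1, hs1, ?_⟩
            rw [Function.update_of_ne h5, hj1, ← hsj, hyx]
        · exact ⟨y, hy, by rw [Function.update_of_ne hys]; exact hyx⟩
    have h5 := card_le_card h4
    rw [card_insert_of_notMem hj'] at h5
    have h6 : R.card = (S.image φ).card := rfl
    omega
  -- the injection of the multiple colours into the unused ones
  have hcount : R.card + Mu.card ≤ S.card := by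
    have h1 : S.card = ∑ j ∈ R, (S.filter (fun s => φ s = j)).card :=
      Finset.card_eq_sum_card_image φ S
    have h2 : R.card + Mu.card = ∑ j ∈ R, (1 + (if j ∈ Mu then 1 else 0)) := by
      rw [Finset.sum_add_distrib]
      simp only [sum_const, smul_eq_mul, mul_one]
      congr 1
      rw [Finset.sum_ite_mem, sum_const, smul_eq_mul, mul_one]
      congr 1
      exact (inter_eq_right.2 (filter_subset _ _)).symm
    rw [h1, h2]
    apply Finset.sum_le_sum
    intro j hj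
    by_cases hm : j ∈ Mu
    · rw [if_pos hm]
      obtain ⟨s, hs, s', hs', hne, h3, h4⟩ := (hMu j).1 hm
      have : 1 < (S.filter (fun s => φ s = j)).card :=
        Finset.one_lt_card.2 ⟨s, mem_filter.2 ⟨hs, h3⟩, s', mem_filter.2 ⟨hs', h4⟩, hne⟩
      omega
    · rw [if_neg hm]
      obtain ⟨s, hs, hsj⟩ := mem_image.1 hj
      have : 0 < (S.filter (fun s => φ s = j)).card := card_pos.2 ⟨s, mem_filter.2 ⟨hs, hsj⟩⟩
      omega
  obtain ⟨ι, hι1, hι2⟩ : ∃ ι : Fin k → Fin k, (∀ j ∈ Mu, ι j ∉ R) ∧ ∀ j ∈ Mu, ∀ j' ∈ Mu, ι j = ι j' → j = j' := by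
    have hle : Fintype.card {j // j ∈ Mu} ≤ Fintype.card {j // j ∈ Rᶜ} := by
      rw [Fintype.card_coe, Fintype.card_coe, card_compl, Fintype.card_fin]
      omega
    obtain ⟨e⟩ := Function.Embedding.nonempty_of_card_le hle
    let q : Fin k → Fin k := fun j => if h : j ∈ Mu then (e ⟨j, h⟩ : Fin k) else j
    have hq : ∀ j (h : j ∈ Mu), q j = e ⟨j, h⟩ := fun j h => dif_pos h
    refine ⟨q, ?_, ?_⟩
    · intro j hj
      rw [hq j hj]
      exact mem_compl.1 (e ⟨j, hj⟩).2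
    · intro j hj j' hj' h
      rw [hq j hj, hq j' hj'] at h
      have := e.injective (Subtype.ext h)
      simpa using this
  -- (2) the digraph on single vertices
  let Sg : V → Prop := fun s => s ∈ S ∧ ∀ s' ∈ S, φ s' = φ s → s' = s
  let D : V → V → Prop := fun x y => Sg x ∧ Sg y ∧ ∃ a ∈ A, φ a = φ y ∧ G.Adj a x
  have hirr : ∀ x, ¬ D x x := by
    rintro x ⟨h1, h2, a, ha, ha1, ha2⟩
    exact hφ a x (hAB' a ha) (hSB' x h2.1) ha2 ha1
  obtain ⟨M, p, hp, hpinj, hZ⟩ := cyc D hirr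
  have hMS : ∀ w ∈ M, Sg w := fun w hw => (hp w hw).1
  have hpS : ∀ w ∈ M, Sg (p w) := fun w hw => (hp w hw).2.1
  have hSgMu : ∀ s, Sg s → φ s ∉ Mu := by
    intro s hs hm
    obtain ⟨s1, hs1, s2, hs2, hne, h1, h2⟩ := (hMu _).1 hm
    exact hne ((hs.2 s1 hs1 h1).trans (hs.2 s2 hs2 h2).symm)
  have hMuSg : ∀ s ∈ S, φ s ∉ Mu → Sg s := by
    intro s hs hm
    refine ⟨hs, fun s' hs' he => ?_⟩
    by_contra hne
    exact hm ((hMu _).2 ⟨s', hs', s, hs, hne, he, rfl⟩)
  -- (3) colours of the additional vertices of the bag of colour j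
  let Γ : Fin k → Set (Fin k) := fun j => {q | (j ∈ Mu ∧ (q = ι j ∨ q = j)) ∨
    (∃ w ∈ M, φ w = j ∧ (q = φ (p w) ∨ (q = φ w ∧ ∀ y ∈ M, p y ≠ w)))}
  have hMuR : ∀ j ∈ Mu, j ∈ R := fun j hj => (mem_filter.1 hj).1
  have hΓ : ∀ j j' q, q ∈ Γ j → q ∈ Γ j' → j = j' := by
    have cross : ∀ j w q, j ∈ Mu → w ∈ M → (q = ι j ∨ q = j) →
        (q = φ (p w) ∨ (q = φ w ∧ ∀ y ∈ M, p y ≠ w)) → False := by
      intro j w q hj hw h1 h2
      have h3 : ∃ s, Sg s ∧ q = φ s := by
        rcases h2 with h2 | ⟨h2, -⟩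
        · exact ⟨p w, hpS w hw, h2⟩
        · exact ⟨w, hMS w hw, h2⟩
      obtain ⟨s, hs, hqs⟩ := h3
      rcases h1 with h1 | h1
      · exact hι1 j hj (h1 ▸ hqs ▸ hR s hs.1)
      · exact hSgMu s hs (hqs ▸ h1 ▸ hj)
    rintro j j' q (⟨hj, h1⟩ | ⟨w, hw, hwj, h1⟩) (⟨hj', h1'⟩ | ⟨w', hw', hwj', h1'⟩)
    · rcases h1 with h1 | h1 <;> rcases h1' with h1' | h1'
      · exact hι2 j hj j' hj' (h1.symm.trans h1')
      · exact absurd (hMuR j' hj') (by rw [← h1', h1]; exact hι1 j hj)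
      · exact absurd (hMuR j hj) (by rw [← h1, h1']; exact hι1 j' hj')
      · exact h1.symm.trans h1'
    · exact (cross j w' q hj hw' h1 h1').elim
    · exact (cross j' w q hj' hw h1' h1).elim
    · rw [← hwj, ← hwj']
      rcases h1 with h1 | ⟨h1, h2⟩ <;> rcases h1' with h1' | ⟨h1', h2'⟩
      · have h3 := (hpS w' hw').2 (p w) (hpS w hw).1 (h1.symm.trans h1')
        rw [hpinj w hw w' hw' h3]
      · exact absurd ((hMS w' hw').2 (p w) (hpS w hw).1 (h1.symm.trans h1')) (h2' w hw)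
      · exact absurd ((hMS w hw).2 (p w') (hpS w' hw').1 (h1'.symm.trans h1)) (h2 w' hw')
      · exact h1.symm.trans h1'
  -- the bags
  let f : {v : V // v ∈ B} ⊕ {j : Fin k // j ∈ R} → Set V := fun i => match i with
    | Sum.inl b => {b.1}
    | Sum.inr j => {v | (v ∈ S ∧ φ v = j.1) ∨ (v ∈ A ∧ φ v ∈ Γ j.1)}
  have hfl : ∀ b, f (Sum.inl b) = {b.1} := fun b => rfl
  have hfr : ∀ j, f (Sum.inr j) = {v | (v ∈ S ∧ φ v = j.1) ∨ (v ∈ A ∧ φ v ∈ Γ j.1)} := fun j => rfl
  have hconn : ∀ i, (G.induce (f i)).Connected := by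
    rintro (b | ⟨j, hj⟩)
    · exact CA72.singleton_conn G b.1
    · rw [hfr]
      by_cases hm : j ∈ Mu
      · obtain ⟨a, ha, ha1, ha2⟩ := step1 j hm (ι j) (hι1 j hm)
        refine T3.star_conn (z := a) (Or.inr ⟨ha, Or.inl ⟨hm, Or.inl ha1⟩⟩) ?_
        rintro x (⟨hx, hxj⟩ | ⟨hx, hxΓ⟩) hxa
        · exact ha2 x hx hxj
        · exact hAcl a ha x hx (Ne.symm hxa)
      · obtain ⟨s, hs, hsj⟩ := mem_image.1 hj
        have hsg : Sg s := hMuSg s hs (hsj ▸ hm)
        by_cases hw : s ∈ M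
        · obtain ⟨-, -, a, ha, ha1, ha2⟩ := hp s hw
          -- a has the colour of p s and is adjacent to s
          refine T3.star_conn (z := a) (Or.inr ⟨ha, Or.inr ⟨s, hw, hsj, Or.inl ha1⟩⟩) ?_
          rintro x (⟨hx, hxj⟩ | ⟨hx, hxΓ⟩) hxa
          · rw [hsg.2 x hx (hxj.trans hsj.symm)]; exact ha2
          · exact hAcl a ha x hx (Ne.symm hxa)
        · refine T3.star_conn (z := s) (Or.inl ⟨hs, hsj⟩) ?_
          rintro x (⟨hx, hxj⟩ | ⟨hx, hxΓ⟩) hxs
          · exact absurd (hsg.2 x hx (hxj.trans hsj.symm)) hxs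
          · exfalso
            rcases hxΓ with ⟨h1, -⟩ | ⟨w, hw', hwj, -⟩
            · exact hm h1
            · have := hsg.2 w (hMS w hw').1 (hwj.trans hsj.symm)
              exact hw (this ▸ hw')
  have hdisj : ∀ i j, i ≠ j → Disjoint (f i) (f j) := by
    have hlr : ∀ (b : {v : V // v ∈ B}) (j : {j : Fin k // j ∈ R}), Disjoint (f (Sum.inl b)) (f (Sum.inr j)) := by
      intro b j
      rw [Set.disjoint_left]
      rintro x hx (⟨hx', -⟩ | ⟨hx', -⟩)
      · have : x = b.1 := hx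
        exact hBS b.2 (this ▸ hx')
      · have : x = b.1 := hx
        exact hAB (this ▸ hx') b.2
    rintro (b | j) (b' | j') hne
    · rw [hfl, hfl, Set.disjoint_singleton]
      exact fun h => hne (congrArg Sum.inl (Subtype.ext h))
    · exact hlr b j'
    · exact (hlr b' j).symm
    · rw [Set.disjoint_left]
      rintro x (⟨hx, hx1⟩ | ⟨hx, hx1⟩) (⟨hx', hx1'⟩ | ⟨hx', hx1'⟩)
      · exact hne (congrArg Sum.inr (Subtype.ext (hx1.symm.trans hx1')))
      · exact hAS hx' hx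
      · exact hAS hx hx'
      · exact hne (congrArg Sum.inr (Subtype.ext (hΓ _ _ _ hx1 hx1')))
  have hcardI : Fintype.card ({v : V // v ∈ B} ⊕ {j : Fin k // j ∈ R}) < Fintype.card V := by
    rw [Fintype.card_sum, Fintype.card_coe, Fintype.card_coe]
    have h1 : (B ∪ S).card = B.card + S.card := card_union_of_disjoint (by
      rw [Finset.disjoint_left]; intro x h h'; exact hBS h h')
    have h2 : B ∪ S ⊆ univ.erase a0 := by
      intro x hx
      rw [mem_erase]
      refine ⟨?_, mem_univ _⟩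
      rintro rfl
      rw [mem_union] at hx
      rcases hx with hx | hx
      · exact hAB ha0 hx
      · exact hAS ha0 hx
    have h3 := card_le_card h2
    rw [card_erase_of_mem (mem_univ _), card_univ, h1] at h3
    have h4 : 0 < Fintype.card V := Fintype.card_pos_iff.2 ⟨a0⟩
    have h5 : R.card ≤ S.card := card_image_le
    omega
  obtain ⟨C⟩ := hcc _ f hconn hdisj hcardI
  -- the colouring psi of B and S
  let ψ : V → Fin k := fun v => if h : v ∈ B then C (Sum.inl ⟨v, h⟩) else if h' : v ∈ S then C (Sum.inr ⟨φ v, hR v h'⟩)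
    else φ v
  have hψB : ∀ v (h : v ∈ B), ψ v = C (Sum.inl ⟨v, h⟩) := fun v h => dif_pos h
  have hψS : ∀ v (h : v ∈ S), ψ v = C (Sum.inr ⟨φ v, hR v h⟩) := by
    intro v h
    show (if h : v ∈ B then _ else _) = _
    rw [dif_neg (hSB' v h), dif_pos h]
  have hψφ : ∀ s ∈ S, ∀ s' ∈ S, φ s = φ s' → ψ s = ψ s' := by
    intro s hs s' hs' h
    rw [hψS s hs, hψS s' hs']
    congr 2
    exact Subtype.ext h
  have hmemS : ∀ s (hs : s ∈ S), s ∈ f (Sum.inr ⟨φ s, hR s hs⟩) := fun s hs => Or.inl ⟨hs, rfl⟩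
  have hψSS : ∀ s ∈ S, ∀ s' ∈ S, G.Adj s s' → ψ s ≠ ψ s' := by
    intro s hs s' hs' h
    rw [hψS s hs, hψS s' hs']
    refine C.valid ⟨fun e => ?_, s, hmemS s hs, s', hmemS s' hs', h⟩
    have e1 : φ s = φ s' := congrArg Subtype.val (Sum.inr_injective e)
    exact hφ s s' (hSB' s hs) (hSB' s' hs') h e1
  have hψSB : ∀ s ∈ S, ∀ b ∈ B, G.Adj s b → ψ s ≠ ψ b := by
    intro s hs b hb h
    rw [hψS s hs, hψB b hb]
    exact C.valid ⟨Sum.inr_ne_inl, s, hmemS s hs, b, rfl, h⟩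
  have hψBB : ∀ b ∈ B, ∀ b' ∈ B, G.Adj b b' → ψ b ≠ ψ b' := by
    intro b hb b' hb' h
    rw [hψB b hb, hψB b' hb']
    refine C.valid ⟨fun e => ?_, b, rfl, b', rfl, h⟩
    exact h.ne (congrArg Subtype.val (Sum.inl_injective e))
  -- two bags with adjacent vertices get different colours
  have hψbag : ∀ s (hs : s ∈ S) s' (hs' : s' ∈ S), φ s ≠ φ s' → (∃ x y, x ∈ f (Sum.inr ⟨φ s, hR s hs⟩) ∧
      y ∈ f (Sum.inr ⟨φ s', hR s' hs'⟩) ∧ G.Adj x y) → ψ s ≠ ψ s' := by
    rintro s hs s' hs' hne ⟨x, y, hx, hy, hxy⟩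
    rw [hψS s hs, hψS s' hs']
    refine C.valid ⟨fun e => ?_, x, hx, y, hy, hxy⟩
    exact hne (congrArg Subtype.val (Sum.inr_injective e))
  -- (4) representatives
  have hrep : ∀ q ∈ S.image ψ, ∃ s0 ∈ S, ψ s0 = q ∧ ∀ a ∈ A, φ a = φ s0 → ∀ s ∈ S, ψ s = q → ¬ G.Adj a s := by
    intro q hq
    by_contra hcon
    push Not at hcon
    -- no multiple class
    have hsing : ∀ s ∈ S, ψ s = q → φ s ∉ Mu := by
      intro s hs hsq hm
      obtain ⟨a, ha, has, t, ht, htq, hadj⟩ := hcon s hs hsq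
      have hne : φ t ≠ φ s := fun e => hφ a t (hAB' a ha) (hSB' t ht) hadj (has.trans e.symm)
      refine hψbag t ht s hs hne ⟨t, a, Or.inl ⟨ht, rfl⟩, Or.inr ⟨ha, Or.inl ⟨hm, Or.inr has⟩⟩, hadj.symm⟩
        (htq.trans hsq.symm)
    let Z : Finset V := S.filter (fun s => ψ s = q)
    have hZS : ∀ z ∈ Z, z ∈ S ∧ ψ z = q := fun z hz => mem_filter.1 hz
    have hZSg : ∀ z ∈ Z, Sg z := fun z hz => hMuSg z (hZS z hz).1 (hsing z (hZS z hz).1 (hZS z hz).2)
    have hZne : Z.Nonempty := by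
      obtain ⟨x, hx, hxq⟩ := mem_image.1 hq
      exact ⟨x, mem_filter.2 ⟨hx, hxq⟩⟩
    have hZin : ∀ z ∈ Z, ∃ y ∈ Z, D y z := by
      intro z hz
      obtain ⟨a, ha, has, t, ht, htq, hadj⟩ := hcon z (hZS z hz).1 (hZS z hz).2
      have htZ : t ∈ Z := mem_filter.2 ⟨ht, htq⟩
      exact ⟨t, htZ, hZSg t htZ, hZSg z hz, a, ha, has, hadj⟩
    rcases hZ Z hZne hZin with ⟨x, hx, y, hy, hxy, hxM, hyM⟩ | ⟨w, hw, hwM, hwp⟩
    · have hne : φ x ≠ φ y := fun e => hxy ((hMS y hyM).2 x (hZS x hx).1 e)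
      obtain ⟨-, -, a, ha, ha1, ha2⟩ := hp x hxM
      obtain ⟨-, -, b, hb, hb1, hb2⟩ := hp y hyM
      have hab : a ≠ b := by
        rintro rfl
        exact hxy (hpinj x hxM y hyM ((hpS y hyM).2 (p x) (hpS x hxM).1 (ha1.symm.trans hb1)))
      refine hψbag x (hZS x hx).1 y (hZS y hy).1 hne ⟨a, b, Or.inr ⟨ha, Or.inr ⟨x, hxM, rfl, Or.inl ha1⟩⟩,
        Or.inr ⟨hb, Or.inr ⟨y, hyM, rfl, Or.inl hb1⟩⟩, hAcl a ha b hb hab⟩ ?_
      exact (hZS x hx).2.trans (hZS y hy).2.symm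
    · obtain ⟨x, hx, hxw⟩ := hZin w hw
      obtain ⟨hxS, -, a, ha, ha1, ha2⟩ := hxw
      have hne : φ x ≠ φ w := fun e => hφ a x (hAB' a ha) (hSB' x hxS.1) ha2 (ha1.trans e.symm)
      refine hψbag x (hZS x hx).1 w (hZS w hw).1 hne ⟨x, a, Or.inl ⟨hxS.1, rfl⟩,
        Or.inr ⟨ha, Or.inr ⟨w, hwM, rfl, Or.inr ⟨ha1, hwp⟩⟩⟩, ha2.symm⟩ ?_
      exact (hZS x hx).2.trans (hZS w hw).2.symm
  -- (5) the permutation
  have hneV : Nonempty V := ⟨a0⟩
  choose! s0 hs0S hs0ψ hs0A using hrep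
  let ρ : Fin k → Fin k := fun q => φ (s0 q)
  have hρinj : Set.InjOn ρ (S.image ψ : Finset (Fin k)) := by
    intro q hq q' hq' h
    rw [mem_coe] at hq hq'
    rw [← hs0ψ q hq, ← hs0ψ q' hq']
    exact hψφ _ (hs0S q hq) _ (hs0S q' hq') h
  obtain ⟨τ, hτ⟩ := Finset.exists_equiv_extend_of_card_eq (t := (univ : Finset (Fin k))) (by simp)
    (s := S.image ψ) (f := ρ) (subset_univ _) hρinj
  let σ : Fin k → Fin k := fun j => τ.symm ⟨j, mem_univ _⟩
  have hσinj : ∀ j j', σ j = σ j' → j = j' := by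
    intro j j' h
    have := τ.symm.injective h
    simpa using this
  have hσρ : ∀ q ∈ S.image ψ, ∀ j, σ j = q → j = φ (s0 q) := by
    intro q hq j h
    have h1 : τ q = ⟨j, mem_univ _⟩ := by rw [← h]; simp [σ]
    have h2 := hτ q hq
    rw [h1] at h2
    exact h2
  refine hnc ⟨SimpleGraph.Coloring.mk (fun v => if v ∈ A then σ (φ v) else ψ v) ?_⟩
  have keyAS : ∀ a ∈ A, ∀ s ∈ S, G.Adj a s → σ (φ a) ≠ ψ s := by
    intro a ha s hs hadj he
    have hq : ψ s ∈ S.image ψ := mem_image_of_mem _ hs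
    exact hs0A (ψ s) hq a ha (hσρ (ψ s) hq (φ a) he) s hs rfl hadj
  intro u v huv
  show (if u ∈ A then σ (φ u) else ψ u) ≠ (if v ∈ A then σ (φ v) else ψ v)
  by_cases hu : u ∈ A
  · rw [if_pos hu]
    by_cases hv : v ∈ A
    · rw [if_pos hv]
      intro h
      exact huv.ne (huniq u hu v hv (hσinj _ _ h))
    · rw [if_neg hv]
      rcases hcov v with h | h | h
      · exact absurd h hv
      · exact absurd huv (hno u hu v h)
      · exact keyAS u hu v h huv
  · rw [if_neg hu]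
    by_cases hv : v ∈ A
    · rw [if_pos hv]
      rcases hcov u with h | h | h
      · exact absurd h hu
      · exact absurd huv.symm (hno v hv u h)
      · exact (keyAS v hv u h huv.symm).symm
    · rw [if_neg hv]
      rcases hcov u with h | h | h
      · exact absurd h hu
      · rcases hcov v with h' | h' | h'
        · exact absurd h' hv
        · exact hψBB u h v h' huv
        · exact (hψSB v h' u h huv.symm).symm
      · rcases hcov v with h' | h' | h'
        · exact absurd h' hv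
        · exact hψSB u h v h' huv
        · exact hψSS u h v h' huv


end Pool.Agent.TF
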