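import Mathlib
import Pool.Agent.CA72.MinCE
import Pool.Agent.T3.Gal
import Pool.Agent.T3.SM
import Pool.Agent.T3.Berge
import Pool.Agent.TF.Sep
import Pool.Agent.TF.Count

/-!
Clique minors in graphs with a partition into cliques such that disjoint edges between the parts
are always joined by an edge
-/

set_option autoImplicit false

namespace Pool.Agent.TF

open Finset Pool.Agent.CA31 Pool.Agent.CA72 Pool.Agent.CA31C Pool.Agent.T3
open scoped Classical

/-- the fibres of `cl` are cliques, and two disjoint edges between different fibres are joined by an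
edge -/
def Cross {V T : Type} (G : SimpleGraph V) (cl : V → T) : Prop :=
  (∀ u v, u ≠ v → cl u = cl v → G.Adj u v) ∧
  ∀ x y z w, G.Adj x y → G.Adj z w → cl x ≠ cl y → cl z ≠ cl w → x ≠ z → x ≠ w → y ≠ z → y ≠ w →
    G.Adj x z ∨ G.Adj x w ∨ G.Adj y z ∨ G.Adj y w

/-- a connected set meeting two fibres contains an edge between two fibres -/
theorem exists_cross {V T : Type} {G : SimpleGraph V} (cl : V → T) {X : Set V}
    (hX : (G.induce X).Connected) {u v : V} (hu : u ∈ X) (hv : v ∈ X) (hne : cl u ≠ cl v) :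
    ∃ x ∈ X, ∃ y ∈ X, G.Adj x y ∧ cl x ≠ cl y := by
  by_contra hcon
  push Not at hcon
  have key : ∀ a b : X, (G.induce X).Reachable a b → cl a.1 = cl b.1 := by
    rintro a b ⟨w⟩
    induction w with
    | nil => rfl
    | cons h _ ih => exact (hcon _ (Subtype.coe_prop _) _ (Subtype.coe_prop _) h).trans ih
  exact hne (key ⟨u, hu⟩ ⟨v, hv⟩ (hX.preconnected _ _))

theorem Cross.induce {V T : Type} {G : SimpleGraph V} {cl : V → T} (h : Cross G cl) (A : Set V) :
    Cross (G.induce A) (fun w => cl w.1) :=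
  ⟨fun a b hab hc => h.1 _ _ (fun e => hab (Subtype.ext e)) hc,
    fun x y z w h1 h2 h3 h4 h5 h6 h7 h8 => h.2 x.1 y.1 z.1 w.1 h1 h2 h3 h4
      (fun e => h5 (Subtype.ext e)) (fun e => h6 (Subtype.ext e)) (fun e => h7 (Subtype.ext e))
      (fun e => h8 (Subtype.ext e))⟩

theorem Cross.quot {V T W : Type} {G : SimpleGraph V} {cl : V → T} (h : Cross G cl) {f : W → Set V}
    (hc : ∀ i, (G.induce (f i)).Connected) (hd : ∀ i j, i ≠ j → Disjoint (f i) (f j))
    (g : W → V) (hg : ∀ i, g i ∈ f i) : Cross (QG G f) (fun i => cl (g i)) := by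
  have hne : ∀ i j, i ≠ j → ∀ x ∈ f i, ∀ y ∈ f j, x ≠ y := by
    intro i j hij x hx y hy e
    exact Set.disjoint_left.1 (hd i j hij) hx (e ▸ hy)
  refine ⟨fun i j hij hcij => ⟨hij, g i, hg i, g j, hg j, h.1 _ _ (hne i j hij _ (hg i) _ (hg j)) hcij⟩, ?_⟩
  intro i j l m hij hlm hcij hclm h1 h2 h3 h4
  have hconn : ∀ i j, (QG G f).Adj i j → cl (g i) ≠ cl (g j) →
      ∃ x ∈ f i ∪ f j, ∃ y ∈ f i ∪ f j, G.Adj x y ∧ cl x ≠ cl y := by
    rintro i j ⟨-, x, hx, y, hy, hxy⟩ hcij
    by_cases h1 : cl x = cl (g i)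
    · by_cases h2 : cl y = cl (g j)
      · exact ⟨x, Or.inl hx, y, Or.inr hy, hxy, by rw [h1, h2]; exact hcij⟩
      · obtain ⟨a, ha, b, hb, hab, hcab⟩ := exists_cross cl (hc j) hy (hg j) h2
        exact ⟨a, Or.inr ha, b, Or.inr hb, hab, hcab⟩
    · obtain ⟨a, ha, b, hb, hab, hcab⟩ := exists_cross cl (hc i) hx (hg i) h1
      exact ⟨a, Or.inl ha, b, Or.inl hb, hab, hcab⟩
  obtain ⟨x, hx, y, hy, hxy, hcxy⟩ := hconn i j hij hcij
  obtain ⟨z, hz, w, hw, hzw, hczw⟩ := hconn l m hlm hclm
  have hdis : ∀ a ∈ f i ∪ f j, ∀ b ∈ f l ∪ f m, a ≠ b := by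
    rintro a (ha | ha) b (hb | hb)
    · exact hne i l h1 a ha b hb
    · exact hne i m h2 a ha b hb
    · exact hne j l h3 a ha b hb
    · exact hne j m h4 a ha b hb
  have hadj : ∃ a ∈ f i ∪ f j, ∃ b ∈ f l ∪ f m, G.Adj a b := by
    rcases h.2 x y z w hxy hzw hcxy hczw (hdis x hx z hz) (hdis x hx w hw) (hdis y hy z hz)
      (hdis y hy w hw) with h | h | h | h
    · exact ⟨x, hx, z, hz, h⟩
    · exact ⟨x, hx, w, hw, h⟩
    · exact ⟨y, hy, z, hz, h⟩
    · exact ⟨y, hy, w, hw, h⟩
  obtain ⟨a, ha | ha, b, hb | hb, hab⟩ := hadj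
  · exact Or.inl ⟨h1, a, ha, b, hb, hab⟩
  · exact Or.inr (Or.inl ⟨h2, a, ha, b, hb, hab⟩)
  · exact Or.inr (Or.inr (Or.inl ⟨h3, a, ha, b, hb, hab⟩))
  · exact Or.inr (Or.inr (Or.inr ⟨h4, a, ha, b, hb, hab⟩))

/-- in the class all separators of a contraction-critical graph are large -/
theorem Cross.sep {V T : Type} [Fintype V] {G : SimpleGraph V} {cl : V → T} (h : Cross G cl) {k : ℕ}
    (hnc : ¬ G.Colorable k) (hcc : ConCrit G k) (A B : Finset V) (hAB : Disjoint A B)
    (hA : A.Nonempty) (hB : B.Nonempty) (hno : ∀ a ∈ A, ∀ b ∈ B, ¬ G.Adj a b) :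
    k + 1 ≤ (univ \ (A ∪ B)).card := by
  -- the case in which `A` has no edge between two fibres
  have main : ∀ A B : Finset V, Disjoint A B → A.Nonempty → B.Nonempty →
      (∀ a ∈ A, ∀ b ∈ B, ¬ G.Adj a b) → (∀ x ∈ A, ∀ y ∈ A, G.Adj x y → cl x = cl y) →
      k + 1 ≤ (univ \ (A ∪ B)).card := by
    intro A B hAB hA hB hno hin
    obtain ⟨a, ha⟩ := hA
    let A0 : Finset V := A.filter (fun x => cl x = cl a)
    have hA0 : ∀ x ∈ A0, x ∈ A ∧ cl x = cl a := fun x hx => mem_filter.1 hx
    have hS : univ \ (A0 ∪ ((A \ A0) ∪ B)) = univ \ (A ∪ B) := by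
      ext v
      simp only [mem_sdiff, mem_univ, true_and, mem_union]
      constructor
      · intro h1 h2
        apply h1
        by_cases h3 : v ∈ A0
        · exact Or.inl h3
        · rcases h2 with h2 | h2
          · exact Or.inr (Or.inl ⟨h2, h3⟩)
          · exact Or.inr (Or.inr h2)
      · rintro h1 (h2 | h2 | h2)
        · exact h1 (Or.inl (hA0 v h2).1)
        · exact h1 (Or.inl h2.1)
        · exact h1 (Or.inr h2)
    rw [← hS]
    have hABd : ∀ x ∈ A, x ∉ B := fun x hx => Finset.disjoint_left.1 hAB hx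
    refine sep_clique hnc hcc (A := A0) (B := (A \ A0) ∪ B) ?_ ?_ ?_ ?_ ⟨a, mem_filter.2 ⟨ha, rfl⟩⟩ ?_ ?_ ?_
    · rw [Finset.disjoint_left]
      intro x hx hx'
      rcases mem_union.1 hx' with h1 | h1
      · exact (mem_sdiff.1 h1).2 hx
      · exact hABd x (hA0 x hx).1 h1
    · rw [Finset.disjoint_left]
      intro x hx hx'
      exact (mem_sdiff.1 hx').2 (mem_union_left _ hx)
    · rw [Finset.disjoint_left]
      intro x hx hx'
      exact (mem_sdiff.1 hx').2 (mem_union_right _ hx)
    · intro v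
      simp only [mem_sdiff, mem_univ, true_and, mem_union]
      tauto
    · obtain ⟨b, hb⟩ := hB
      exact ⟨b, mem_union_right _ hb⟩
    · intro x hx y hy hxy
      rcases mem_union.1 hy with h1 | h1
      · obtain ⟨h2, h3⟩ := mem_sdiff.1 h1
        exact h3 (mem_filter.2 ⟨h2, (hin x (hA0 x hx).1 y h2 hxy).symm.trans (hA0 x hx).2⟩)
      · exact hno x (hA0 x hx).1 y h1 hxy
    · intro x hx y hy hxy
      exact h.1 x y hxy ((hA0 x hx).2.trans (hA0 y hy).2.symm)
  by_cases hinA : ∀ x ∈ A, ∀ y ∈ A, G.Adj x y → cl x = cl y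
  · exact main A B hAB hA hB hno hinA
  · push Not at hinA
    obtain ⟨x, hx, y, hy, hxy, hcxy⟩ := hinA
    have h1 := main B A hAB.symm hB hA (fun b hb a ha hab => hno a ha b hb hab.symm) (by
      intro z hz w hw hzw
      by_contra hczw
      have hd : ∀ a ∈ A, ∀ b ∈ B, a ≠ b := fun a ha b hb e => Finset.disjoint_left.1 hAB ha (e ▸ hb)
      rcases h.2 x y z w hxy hzw hcxy hczw (hd x hx z hz) (hd x hx w hw) (hd y hy z hz) (hd y hy w hw)
        with h | h | h | h
      · exact hno x hx z hz h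
      · exact hno x hx w hw h
      · exact hno y hy z hz h
      · exact hno y hy w hw h)
    rwa [union_comm] at h1

/-- the matching lemma -/
theorem cross_matching {V T : Type} [Fintype V] {G : SimpleGraph V} (cl : V → T) {k : ℕ}
    (hsep : ∀ A B : Finset V, Disjoint A B → A.Nonempty → B.Nonempty → (∀ a ∈ A, ∀ b ∈ B, ¬ G.Adj a b) →
      k + 1 ≤ (univ \ (A ∪ B)).card)
    (hpair : ∀ a, k + 1 ≤ (univ.filter (fun v => cl v ≠ a)).card) (hn : 2 * k ≤ Fintype.card V) :
    ∃ x y : Fin k → V, Function.Injective x ∧ Function.Injective y ∧ (∀ i j, x i ≠ y j) ∧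
      ∀ i, G.Adj (x i) (y i) ∧ cl (x i) ≠ cl (y i) := by
  let H : SimpleGraph V :=
    { Adj := fun u v => cl u ≠ cl v ∧ G.Adj u v
      symm := ⟨fun u v h => ⟨h.1.symm, h.2.symm⟩⟩
      loopless := ⟨fun u h => h.1 rfl⟩ }
  obtain ⟨x, y, h1, h2, h3⟩ := berge H k hn (fun U I _ comp hno => by
    by_contra hcon
    exact count cl U comp (fun u v hu hv hc hcl' hadj => hno u v hu hv hc ⟨hcl', hadj⟩)
      hsep hpair hn (by omega))
  refine ⟨x, y, ?_, ?_, h3, fun i => ⟨(h1 i).2, (h1 i).1⟩⟩
  · intro i j hij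
    by_contra hne
    exact (h2 i j hne).1 hij
  · intro i j hij
    by_contra hne
    exact (h2 i j hne).2 hij

theorem main_aux {T : Type} : ∀ n : ℕ, ∀ (V : Type) [Fintype V]
    (G : SimpleGraph V) (cl : V → T), Cross G cl →
    ∀ k : ℕ, Fintype.card V = n → ¬ G.Colorable k → SM G k := by
  intro n
  induction n using Nat.strong_induction_on with
  | _ n ih =>
    intro V _ G cl hcl k hn hk
    by_contra hno
    -- quotients
    have hcc : ConCrit G k := by
      intro W _ f hc hd hlt
      by_contra hcol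
      have hch : ∀ i, ∃ v, v ∈ f i := fun i => ⟨(hc i).nonempty.some.1, (hc i).nonempty.some.2⟩
      choose g hg using hch
      exact hno (SM.quot hc hd (ih _ (hn ▸ hlt) W (QG G f) (fun i => cl (g i)) (hcl.quot hc hd g hg) k rfl hcol))
    have hV : Nonempty V := by
      by_contra h
      have : IsEmpty V := not_nonempty_iff.1 h
      exact hk ⟨SimpleGraph.Coloring.mk (fun v => (this.false v).elim)
        (fun {u v} _ => (this.false u).elim)⟩
    have hcrit : ∀ v, (G.induce {w | w ≠ v}).Colorable k := by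
      intro v
      have hlt : Fintype.card {w : V // w ≠ v} < Fintype.card V :=
        Fintype.card_subtype_lt (x := v) (by simp)
      obtain ⟨C⟩ := hcc {w : V // w ≠ v} (fun i => {i.1}) (fun i => singleton_conn G i.1)
        (fun i j hij => by
          rw [Set.disjoint_singleton]
          exact fun e => hij (Subtype.ext e)) hlt
      refine ⟨SimpleGraph.Coloring.mk (fun w => C ⟨w.1, w.2⟩) ?_⟩
      intro u w huw
      have h1 : (QG G (fun i : {w : V // w ≠ v} => ({i.1} : Set V))).Adj ⟨u.1, u.2⟩ ⟨w.1, w.2⟩ :=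
        ⟨fun e => huw.ne (Subtype.ext (Subtype.ext_iff.1 e)), u.1, rfl, w.1, rfl, huw⟩
      exact C.valid h1
    -- the complement is connected
    have hconn : Gᶜ.Preconnected := by
      by_contra hcon
      unfold SimpleGraph.Preconnected at hcon
      push Not at hcon
      obtain ⟨u, v, huv⟩ := hcon
      set A : Set V := {w | Gᶜ.Reachable u w} with hA
      have huA : u ∈ A := SimpleGraph.Reachable.refl u
      have hvA : v ∉ A := huv
      have hjoin : ∀ a ∈ A, ∀ b ∈ Aᶜ, G.Adj a b := by
        intro a ha b hb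
        by_contra h
        have hne : a ≠ b := by
          rintro rfl
          exact hb ha
        have h1 : Gᶜ.Adj a b := by
          rw [SimpleGraph.compl_adj]
          exact ⟨hne, h⟩
        exact hb (SimpleGraph.Reachable.trans ha h1.reachable)
      obtain ⟨r1, hr1, hr1'⟩ := exists_chi (G.induce A)
      obtain ⟨r2, hr2, hr2'⟩ := exists_chi (G.induce Aᶜ)
      have h1 : k < r1 + r2 := by
        by_contra h
        exact hk ((colorable_join hr1 hr2).mono (by omega))
      have h2 : 0 < r1 := by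
        rcases Nat.eq_zero_or_pos r1 with h | h
        · subst h
          obtain ⟨C⟩ := hr1
          exact (C ⟨u, huA⟩).elim0
        · exact h
      have h3 : 0 < r2 := by
        rcases Nat.eq_zero_or_pos r2 with h | h
        · subst h
          obtain ⟨C⟩ := hr2
          exact (C ⟨v, hvA⟩).elim0
        · exact h
      have h4 : Fintype.card A < n := by
        rw [← hn]
        exact Fintype.card_subtype_lt (x := v) hvA
      have h5 : Fintype.card (Aᶜ : Set V) < n := by
        rw [← hn]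
        exact Fintype.card_subtype_lt (x := u) (fun h => h huA)
      have h6 := ih _ h4 A (G.induce A) (fun w => cl w.1) (hcl.induce A) (r1 - 1) rfl
        (hr1' _ (by omega))
      have h7 := ih _ h5 (Aᶜ : Set V) (G.induce Aᶜ) (fun w => cl w.1) (hcl.induce Aᶜ) (r2 - 1) rfl
        (hr2' _ (by omega))
      exact hno ((SM.join hjoin h6 h7).mono (by omega))
    have hgal := gallai_card hk hcrit hconn
    -- cliques
    have hcliq : ∀ K : Finset V, (∀ x ∈ K, ∀ y ∈ K, x ≠ y → G.Adj x y) → K.card ≤ k := by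
      intro K hK
      by_contra h
      obtain ⟨t, ht, htc⟩ := Finset.exists_subset_card_eq (s := K) (n := k + 1) (by omega)
      exact hno (SM.of_clique (fun hfree => hfree t ⟨fun x hx y hy hxy =>
        hK x (ht hx) y (ht hy) hxy, htc⟩))
    have hpair : ∀ a, k + 1 ≤ (univ.filter (fun v => cl v ≠ a)).card := by
      intro a
      have h1 := hcliq (univ.filter (fun v => cl v = a)) (fun x hx y hy hxy =>
        hcl.1 x y hxy ((mem_filter.1 hx).2.trans (mem_filter.1 hy).2.symm))
      have h2 := Finset.card_filter_add_card_filter_not (s := (univ : Finset V)) (fun v => cl v = a)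
      rw [Finset.card_univ] at h2
      have h3 : (univ.filter (fun v => cl v ≠ a)).card =
        (univ.filter (fun v => ¬ cl v = a)).card := rfl
      rw [h3]
      omega
    obtain ⟨x, y, hx, hy, hxy, hadj⟩ := cross_matching cl (hcl.sep hk hcc) hpair (by omega)
    -- a further vertex
    obtain ⟨v0, hv0⟩ : ∃ v0, (∀ i, v0 ≠ x i) ∧ ∀ i, v0 ≠ y i := by
      by_contra h
      push Not at h
      have h1 : (univ : Finset V) ⊆ univ.image x ∪ univ.image y := by
        intro v _
        by_cases hvx : ∃ i, v = x i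
        · obtain ⟨i, rfl⟩ := hvx
          exact mem_union_left _ (mem_image_of_mem _ (mem_univ _))
        · push Not at hvx
          obtain ⟨i, hi⟩ := h v hvx
          rw [hi]
          exact mem_union_right _ (mem_image_of_mem _ (mem_univ _))
      have h2 := Finset.card_le_card h1
      have h3 := Finset.card_union_le (univ.image x) (univ.image y)
      have h4 : (univ.image x).card ≤ k := Finset.card_image_le.trans (by simp)
      have h5 : (univ.image y).card ≤ k := Finset.card_image_le.trans (by simp)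
      rw [Finset.card_univ] at h2
      omega
    refine hno (SM.of_edges x y v0 (fun i => (hadj i).1) (fun i j hij e => hij (hx e))
      (fun i j hij e => hij (hy e)) hxy (fun i e => hv0.1 i e.symm) (fun i e => hv0.2 i e.symm) ?_)
    intro i j hij
    exact hcl.2 (x i) (y i) (x j) (y j) (hadj i).1 (hadj j).1 (hadj i).2 (hadj j).2
      (fun e => hij (hx e)) (hxy i j) (fun e => hxy j i e.symm) (fun e => hij (hy e))

/-- every graph in the class which is not `k`-colourable has a split model of `K_k` -/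
theorem main {V T : Type} [Fintype V] {G : SimpleGraph V} (cl : V → T) (hcl : Cross G cl) {k : ℕ}
    (hk : ¬ G.Colorable k) : SM G k :=
  main_aux _ V G cl hcl k rfl hk

end Pool.Agent.TF
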